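import Pool.Agent.Q187.SO.Main

/-!
# Soulé's conjecture at `s = 0`: blow-ups along varieties over finite fields

For a smooth projective `Y` over a finite field with finite motivic cohomology, the question for
two blow-ups along `Y` of schemes for which the formulas are known, times projective spaces, is
equivalent to the vanishing of the Euler characteristics of the motivic cohomology of `Y` in all
weights above the dimension.
-/

set_option autoImplicit false

namespace Pool.Agent.Results.MP_f3836a_nt.BlowUpsOverFiniteFields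

open Pool.Agent.Q187.SO

theorem result (D : Data) (Y X₁ X₂ B₁ B₂ : D.Sch) (r q : ℕ) (P₁ P₂ : ℕ → D.Sch)
    (hY : D.IsOverFiniteField Y q) (hF : ∀ b : ℕ, D.Finite Y (D.dim Y + (b + 1 : ℕ)))
    (hX₁ : D.Known X₁) (hX₂ : D.Known X₂) (hB₁ : D.IsBlowUp X₁ Y B₁ r)
    (hB₂ : D.IsBlowUp X₂ Y B₂ (r + 1)) (hP₁ : ∀ m, D.IsProjSpace B₁ (P₁ m) m)
    (hP₂ : ∀ m, D.IsProjSpace B₂ (P₂ m) m) :
    (∀ m, D.Question (P₁ m) ∧ D.Question (P₂ m)) ↔
      ∀ n : ℕ, D.dim Y < n → D.euler Y n = 0 :=
  finite_field_iff hY hF hX₁ hX₂ hB₁ hB₂ hP₁ hP₂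

end Pool.Agent.Results.MP_f3836a_nt.BlowUpsOverFiniteFields
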