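import Pool.Agent.Q187.SO.Main

/-!
# Soulé's conjecture at `s = 0` and the orders at all integers `s ≤ 0`

The question (order at `s = 0`) for all products `X × P^m` is equivalent to the analogous formula
for `X` at all integers `s = -k ≤ 0`.
-/

set_option autoImplicit false

namespace Pool.Agent.Results.MP_f3836a_nt.OrdersAtNegativeIntegers

open Pool.Agent.Q187.SO

theorem result (D : Data) (X : D.Sch) (P : ℕ → D.Sch) (hP : ∀ m, D.IsProjSpace X (P m) m)
    (hX : ∀ k : ℕ, MeromorphicAt (D.zeta X) (-(k : ℂ)))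
    (hF : ∀ k : ℕ, D.Finite X (D.dim X + k)) :
    (∀ m, D.Question (P m)) ↔ ∀ k, D.SouleAt X k :=
  soule_iff hP hX hF

end Pool.Agent.Results.MP_f3836a_nt.OrdersAtNegativeIntegers
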