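import Pool.Agent.Q187.SO.Main

/-!
# Soulé's conjecture at `s = 0`: schemes built by projective spaces and blow-ups

The question, and the analogous formula at all integers `s = -k ≤ 0`, hold for all schemes built
from schemes for which they are known by products with projective spaces and by blow-ups along
centres built in the same way, or along smooth projective varieties over finite fields whose
motivic cohomology in weights above the dimension is finite with Euler characteristic zero.
-/

set_option autoImplicit false

namespace Pool.Agent.Results.MP_f3836a_nt.SchemesBuiltByBlowUps

open Pool.Agent.Q187.SO

theorem result (D : Data) (S : D.Sch → Prop) (hS : ∀ X, S X → D.Known X) (X : D.Sch)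
    (hX : Built D S X) : D.Question X ∧ ∀ k, D.SouleAt X k := by
  have h := known_of_built hS hX
  exact ⟨Known.question h, h.soule⟩

end Pool.Agent.Results.MP_f3836a_nt.SchemesBuiltByBlowUps
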