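import Pool.Agent.Q27.SO.Bnd
import Pool.Agent.Q27.BG2.Flat
import Pool.Agent.Q54.CU.Trip

/-!
# Soulé's conjecture on the orders of zeta functions in each dimension and tensors

For a finite set `H` of triples `(i, j, k)` let `E_H` be the hypersurface
`∑_{(i, j, k) ∈ H} x_i y_j z_k = 1` over `ℤ`. The formula of Soulé for `X` says that the order of the
zeta function of `X` at every integer `n` is `∑ (-1)^(i+1) dim CH_n(X, i) ⊗ ℚ`. We show that it is true
for all arithmetic schemes with fibres of dimension at most `d` over `ℤ`, singular ones included, if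
and only if it is true for the schemes `E_H` with `d + 2` variables `z`, and that this implies the
formula for all integral schemes of dimension at most `d + 1` which are flat over `ℤ`.
-/

set_option autoImplicit false

namespace Pool.Agent.Results.MP_f3836a_nt.TensorsInEachDimension

open CategoryTheory AlgebraicGeometry NumberField
open Pool.Agent.Y116.UV Q54.CU Q54.ZE Pool.Agent.Q27.BG Pool.Agent.Q27.BG2 Pool.Agent.Q27.SO

/-- `F` is a meromorphic continuation to the connected set `U` of the zeta function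
`∏ (1 - #k(x)^(-s))⁻¹` over the closed points `x` of `X`. -/
structure IsZeta (X : Scheme.{0}) (U : Set ℂ) (F : ℂ → ℂ) : Prop where
  connected : IsConnected U
  meromorphic : MeromorphicOn F U
  product : ∃ σ : ℝ, ∀ s : ℂ, σ < s.re → s ∈ U ∧
    F s = ∏' x : {x : X // IsClosed ({x} : Set X)}, (1 - (Nat.card (X.residueField x.1) : ℂ) ^ (-s))⁻¹

/-- The formula of Soulé for `X` at all integers `n`, where `C n i X = CH_n(X, i) ⊗ ℚ`: these spaces
have finite dimension, for each `n` almost all of them vanish, the zeta function of `X` has a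
meromorphic continuation to the plane, and each continuation to a connected set which contains `n` has
the order `∑ (-1)^(i+1) dim C n i X` at `n`. -/
structure SouleFormula (C : ℤ → ℤ → Sch ℤ → ModuleCat.{0} ℚ) (X : Sch ℤ) : Prop where
  finite : ∀ n i, Module.Finite ℚ (C n i X)
  bounded : ∀ n, {i | ¬ Subsingleton (C n i X)}.Finite
  continuation : ∃ F, IsZeta X.left Set.univ F
  order : ∀ U F, IsZeta X.left U F → ∀ n : ℤ, (n : ℂ) ∈ U → meromorphicOrderAt F n =
    ((∑ᶠ i : ℤ, ((i + 1).negOnePow : ℤ) * Module.finrank ℚ (C n i X) : ℤ) : WithTop ℤ)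

section

variable (P : Sch ℤ → Prop)

/-- `P` is true for all regular separated schemes of finite type over `ℤ` whose fibres have dimension
at most `d`. -/
def RegFib (d : ℕ) : Prop :=
  ∀ X : Sch ℤ, FT True X → IsRegularSch X.left → FibLE d (X := X.left) X.hom → P X

/-- `P` is true for all separated schemes of finite type over `ℤ` whose fibres have dimension at most
`d`. -/
def AllFib (d : ℕ) : Prop :=
  ∀ X : Sch ℤ, FT True X → FibLE d (X := X.left) X.hom → P X

/-- `P` is true for all regular separated schemes of finite type over `ℤ` of dimension at most `D`. -/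
def RegDim (D : ℕ) : Prop :=
  ∀ X : Sch ℤ, FT True X → IsRegularSch X.left → topologicalKrullDim X.left ≤ D → P X

/-- `P` is true for all separated schemes of finite type over `ℤ` of dimension at most `D`. -/
def AllDim (D : ℕ) : Prop :=
  ∀ X : Sch ℤ, FT True X → topologicalKrullDim X.left ≤ D → P X

/-- `P` is true for the hypersurfaces `∑_{(i, j, k) ∈ H} x_i y_j z_k = 1` over `ℤ`, where `H` is any
set of triples with `k < c`. -/
def GraphZ (c : ℕ) : Prop := ∀ (a b : ℕ) (H : Finset (Fin a × Fin b × Fin c)), P (tripS ℤ H)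

/-- `P` is true for the hypersurfaces `T(x, y, z) = 1` over `ℤ`, where `T` is any trilinear form over
`ℤ` with at most `c` variables in one of the three blocks. -/
def BlockZ (c : ℕ) : Prop :=
  ∀ (l m n : ℕ) (T : Fin l → Fin m → Fin n → ℤ), l ≤ c ∨ m ≤ c ∨ n ≤ c → P (hypS T)

/-- `P` is true for the hypersurfaces `T(x, y, z) = 1`, where `T` is any trilinear form over a finite
field with at most `c` variables in one of the three blocks. -/
def BlockF (c : ℕ) : Prop :=
  ∀ (k : Type) [Field k] [Finite k] (l m n : ℕ) (T : Fin l → Fin m → Fin n → k),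
    l ≤ c ∨ m ≤ c ∨ n ≤ c → P (aff ℤ (Hyp T))

/-- `P` is true for the rings of integers of number fields, for the finite fields and for the smooth
algebras over `𝔽_p` of dimension at most one. -/
def Known : Prop :=
  (∀ (K : Type) [Field K] [NumberField K], P (aff ℤ (𝓞 K))) ∧
    (∀ (k : Type) [Field k] [Finite k], P (aff ℤ k)) ∧
      ∀ (p : ℕ) [Fact p.Prime] (A : Type) [CommRing A] [Algebra (ZMod p) A]
        [Algebra.Smooth (ZMod p) A], ringKrullDim A ≤ 1 → P (aff ℤ A)

end

/-- Two continuations have the same orders. -/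
lemma order_unique {X : Scheme.{0}} {U : Set ℂ} {F G : ℂ → ℂ} (hF : IsZeta X U F)
    (hG : IsZeta X Set.univ G) {s : ℂ} (hs : s ∈ U) :
    meromorphicOrderAt F s = meromorphicOrderAt G s := by
  obtain ⟨σ, h1⟩ := hF.product
  obtain ⟨τ, h2⟩ := hG.product
  have hD : MeromorphicOn (F - G) U :=
    hF.meromorphic.sub fun z _ => hG.meromorphic z trivial
  have h0 : max σ τ < (((max σ τ + 1 : ℝ) : ℂ)).re := by
    rw [Complex.ofReal_re]
    linarith
  have h3 : meromorphicOrderAt (F - G) ((max σ τ + 1 : ℝ) : ℂ) = ⊤ := by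
    rw [meromorphicOrderAt_eq_top_iff]
    apply Filter.Eventually.filter_mono nhdsWithin_le_nhds
    have h3 : {z : ℂ | max σ τ < z.re} ∈ nhds (((max σ τ + 1 : ℝ) : ℂ)) :=
      (isOpen_lt continuous_const Complex.continuous_re).mem_nhds h0
    filter_upwards [h3] with z hz
    rw [Pi.sub_apply, (h1 z ((le_max_left _ _).trans_lt hz)).2,
      (h2 z ((le_max_right _ _).trans_lt hz)).2, sub_self]
  have h4 : meromorphicOrderAt (F - G) s = ⊤ := by
    by_contra hcon
    exact (hD.exists_meromorphicOrderAt_ne_top_iff_forall hF.connected).1 ⟨⟨s, hs⟩, hcon⟩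
      ⟨_, (h1 _ ((le_max_left _ _).trans_lt h0)).1⟩ h3
  rw [meromorphicOrderAt_eq_top_iff] at h4
  apply meromorphicOrderAt_congr
  filter_upwards [h4] with z hz
  rw [Pi.sub_apply] at hz
  exact sub_eq_zero.1 hz

/-- The formula of Soulé is the property `Soule`. -/
lemma formula_iff (C : ℤ → ℤ → Sch ℤ → ModuleCat.{0} ℚ) (X : Sch ℤ) :
    SouleFormula C X ↔ Soule C X := by
  have hchi : ∀ n : ℤ, (∑ᶠ i : ℤ, ((i + 1).negOnePow : ℤ) * Module.finrank ℚ (C n i X) : ℤ) =
      -chi fun i => C n i X := by
    intro n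
    change _ = -∑ᶠ i : ℤ, (i.negOnePow : ℤ) * (Module.finrank ℚ (C n i X) : ℤ)
    rw [← finsum_neg_distrib]
    apply finsum_congr
    intro i
    rw [Int.negOnePow_succ]
    push_cast
    ring
  have hzero : ∀ n i, Module.Finite ℚ (C n i X) →
      (Module.finrank ℚ (C n i X) ≠ 0 ↔ ¬ Subsingleton (C n i X)) := fun n i h =>
    not_congr Module.finrank_zero_iff
  constructor
  · rintro ⟨h1, h2, ⟨F, hF⟩, h4⟩
    refine ⟨fun n => ⟨h1 n, (h2 n).subset fun i hi => (hzero n i (h1 n i)).1 hi⟩, F,
      hF.meromorphic, ?_, fun n => ?_⟩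
    · obtain ⟨σ, h5⟩ := hF.product
      exact ⟨σ, fun s hs => (h5 s hs).2⟩
    · exact (h4 _ F hF n trivial).trans (by rw [hchi])
  · rintro ⟨h1, F, h2, ⟨σ, h3⟩, h4⟩
    have hF : IsZeta X.left Set.univ F := ⟨isConnected_univ, h2, σ, fun s hs => ⟨trivial, h3 s hs⟩⟩
    refine ⟨fun n => (h1 n).finite, fun n => (h1 n).supp.subset fun i hi =>
      (hzero n i ((h1 n).finite i)).2 hi, ⟨F, hF⟩, fun U G hG n hn => ?_⟩
    rw [order_unique hG hF hn, h4, hchi]

/-- **The conjecture of Soulé in each dimension and tensors.** -/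
theorem result (C : ℤ → ℤ → Sch ℤ → ModuleCat.{0} ℚ) (hC : IsChow C)
    (point : SouleFormula C (aff ℤ ℤ)) :
    (∀ d : ℕ, List.TFAE
      [RegFib (SouleFormula C) d, AllFib (SouleFormula C) d, GraphZ (SouleFormula C) (d + 2),
        BlockZ (SouleFormula C) (d + 2)]) ∧
    (∀ d : ℕ, GraphZ (SouleFormula C) (d + 2) → ∀ X : Sch ℤ, FT True X → IsIntegral X.left →
      Flat X.hom → topologicalKrullDim X.left ≤ (d + 1 : ℕ) → SouleFormula C X) ∧
    (∀ D : ℕ, List.TFAE [RegDim (SouleFormula C) D, AllDim (SouleFormula C) D,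
      BlockZ (SouleFormula C) (D + 1) ∧ BlockF (SouleFormula C) (D + 2)]) ∧
    (Known (SouleFormula C) → AllDim (SouleFormula C) 1 ∧ BlockZ (SouleFormula C) 2 ∧
      BlockF (SouleFormula C) 3) ∧
    ∀ (l m n : ℕ) (T : Fin l → Fin m → Fin n → ℤ), FT True (hypS T) ∧
      IsRegularSch (hypS T).left ∧ Smooth (hypS T).hom := by
  have hE : SouleFormula C = Soule C := funext fun X => propext (formula_iff C X)
  rw [hE] at point ⊢
  have hP := bnd_soule hC point
  refine ⟨fun d => fib_main_sep hP d, fun d h X hX hI hflat hd => flat_main hP h X hX hd,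
    fun D => ?_, fun ⟨hO, hF, hC⟩ => ?_, fun _ _ _ T => ⟨ft_aff True, reg_hypS T, ?_⟩⟩
  · have h := dim_main_sep hP D
    tfae_have 1 ↔ 2 := h.out 0 1
    tfae_have 2 ↔ 3 := h.out 1 3
    tfae_finish
  · have h := dim_of_affine_sep hP (D := 1) fun A _ _ _ hA => dim_one_sep hP hO hF hC A hA
    have h2 := ((dim_main_sep hP 1).out 1 3).1 h
    exact ⟨h, h2.1, h2.2⟩
  · change Smooth (Spec.map (CommRingCat.ofHom (algebraMap ℤ (Hyp T))))
    rw [HasRingHomProperty.Spec_iff (P := @Smooth)]
    exact RingHom.smooth_algebraMap.2 (hyp_smooth T)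

end Pool.Agent.Results.MP_f3836a_nt.TensorsInEachDimension
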